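import Pool.Agent.Work.MP_f82ddf_gen.Interface

set_option autoImplicit false

namespace Pool.ThmMG

open MvPolynomial Finset Pool.Agent.Work.MP_f82ddf_nt Pool.Agent.Work.MP_f82ddf_nt.DQ Pool.ThmM
open Pool.ThmM0

theorem GNR_map (r n : ℕ) (K : Type) [Field K] (a : Matrix (Fin r) (Fin (n + r + 1)) K) :
    (gm r n).map ((aeval (fun q : Fin r × Fin (n + r + 1) => a q.1 q.2) :
      MvPolynomial (Fin r × Fin (n + r + 1)) ℤ →ₐ[ℤ] K).toRingHom) = a := by
  ext i j
  simp [gm]

theorem p_GNR (hI : Stmt_PRI) (hM : Stmt_PRM) (hV : Stmt_VND) (hZ : Stmt_VNZ) (hN : Stmt_MNZ)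
    (hS : Stmt_SMO) : Stmt_GNR := by
  classical
  intro n D
  refine ⟨(mons n D).card, ?_⟩
  intro r h
  refine ⟨ver n D (fun s => par (gm r n) (nd h s)) *
    ∏ J ∈ (Finset.univ.filter (fun J : Fin r → Fin (n + r + 1) => Function.Injective J)),
      (Matrix.of fun i l => gm r n i (J l)).det, ?_, ?_⟩
  · apply mul_ne_zero (hZ n D r h)
    rw [Finset.prod_ne_zero_iff]
    intro J hJ
    exact hN r n J (Finset.mem_filter.1 hJ).2
  · intro K _ _ a ha
    set φ : MvPolynomial (Fin r × Fin (n + r + 1)) ℤ →+* K :=
      (aeval (fun q : Fin r × Fin (n + r + 1) => a q.1 q.2) :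
        MvPolynomial (Fin r × Fin (n + r + 1)) ℤ →ₐ[ℤ] K).toRingHom with hφ
    have hmap : (gm r n).map φ = a := GNR_map r n K a
    have hent : ∀ i j, φ (gm r n i j) = a i j := by
      intro i j
      have := congrFun (congrFun hmap i) j
      simpa [Matrix.map_apply] using this
    have ha' : φ (ver n D (fun s => par (gm r n) (nd h s)) *
      ∏ J ∈ (Finset.univ.filter (fun J : Fin r → Fin (n + r + 1) => Function.Injective J)),
        (Matrix.of fun i l => gm r n i (J l)).det) ≠ 0 := ha
    rw [map_mul] at ha'
    have h1 := left_ne_zero_of_mul ha'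
    have h2 := right_ne_zero_of_mul ha'
    rw [map_prod, Finset.prod_ne_zero_iff] at h2
    have h3 : ∀ J : Fin r → Fin (n + r + 1), Function.Injective J →
        (Matrix.of fun i l => a i (J l)).det ≠ 0 := by
      intro J hJ
      have h4 := h2 J (Finset.mem_filter.2 ⟨Finset.mem_univ _, hJ⟩)
      rw [RingHom.map_det] at h4
      have h5 : φ.mapMatrix (Matrix.of fun i l => gm r n i (J l)) =
          Matrix.of fun i l => a i (J l) := by
        ext i l
        simp [hent]
      rwa [h5] at h4
    refine ⟨fun k hk => hS K r n k a hk h3, par a, ?_, ?_⟩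
    · apply hI
      have h4 := h3 (lc n) (by
        intro x y hxy
        have := congrArg Fin.val hxy
        exact Fin.ext this)
      exact h4
    · apply hV K r n D h
      have h4 : φ (ver n D (fun s => par (gm r n) (nd h s))) =
          ver n D (fun s => par a (nd h s)) := by
        unfold ver
        rw [RingHom.map_det]
        congr 1
        ext s t
        simp only [RingHom.mapMatrix_apply, Matrix.map_apply, Matrix.of_apply, map_prod, map_pow]
        refine Finset.prod_congr rfl (fun c _ => ?_)
        have h5 := hM _ _ φ r n (gm r n) (nd h s) c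
        rw [hmap] at h5
        rw [h5]
      rwa [h4] at h1

end Pool.ThmMG
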