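import Pool.Agent.Work.MP_f82ddf_gen.Interface

set_option autoImplicit false

/-! # Block MNZ (helper72): the maximal minors of the generic matrix are not zero -/

namespace Pool.ThmMG

open MvPolynomial Finset Pool.Agent.Work.MP_f82ddf_nt Pool.Agent.Work.MP_f82ddf_nt.DQ Pool.ThmM
open Pool.ThmM0

theorem p_MNZ : Stmt_MNZ := by
  intro r n J hJ h
  have h1 := congrArg (MvPolynomial.eval
    (fun q : Fin r × Fin (n + r + 1) => if q.2 = J q.1 then (1 : ℤ) else 0)) h
  rw [RingHom.map_det, map_zero] at h1
  have h2 : (MvPolynomial.eval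
      (fun q : Fin r × Fin (n + r + 1) => if q.2 = J q.1 then (1 : ℤ) else 0)).mapMatrix
      (Matrix.of fun i l => gm r n i (J l)) = 1 := by
    ext i l
    rw [RingHom.mapMatrix_apply, Matrix.map_apply, Matrix.of_apply, gm, Matrix.of_apply, eval_X,
      Matrix.one_apply]
    by_cases hil : i = l
    · rw [if_pos hil, if_pos (by rw [hil])]
    · rw [if_neg hil, if_neg]
      intro h3
      exact hil (hJ h3).symm
  rw [h2, Matrix.det_one] at h1
  exact one_ne_zero h1

end Pool.ThmMG
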