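import Pool.Agent.Work.MP_f82ddf_gen.Interface

set_option autoImplicit false

/-! Block PRI of MP_f82ddf_gen: the explicit solutions are a parametrization. -/

namespace Pool.ThmMG

open MvPolynomial Finset Pool.Agent.Work.MP_f82ddf_nt Pool.Agent.Work.MP_f82ddf_nt.DQ Pool.ThmM
open Pool.ThmM0

theorem p_PRI (hPRK : Stmt_PRK) : Stmt_PRI := by
  intro K _ r n a hdet
  refine ⟨fun i c => hPRK K r n a i c, ?_⟩
  rw [Fintype.linearIndependent_iff]
  intro g hg c'
  have h1 := congrFun hg (rc r c')
  rw [Finset.sum_apply] at h1
  have h2 : ∀ c : Fin (n + 1), (g c • fun j => par a j c) (rc r c') =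
      if c = c' then g c * (lft a).det else 0 := by
    intro c
    show g c * par a (rc r c') c = _
    have h3 : par a (rc r c') c = if c = c' then (lft a).det else 0 := by
      unfold par
      rw [dif_neg (by show ¬ (r + c'.1 < r); omega)]
      by_cases h : c = c'
      · rw [if_pos h, if_pos (by show r + c'.1 = r + c.1; rw [h])]
      · rw [if_neg h, if_neg]
        intro e
        apply h
        have e' : r + c'.1 = r + c.1 := e
        exact Fin.ext (by omega)
    rw [h3]
    split_ifs
    · rfl
    · rw [mul_zero]
  rw [Finset.sum_congr rfl fun c _ => h2 c, Finset.sum_ite_eq' Finset.univ c',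
    if_pos (Finset.mem_univ c')] at h1
  exact (mul_eq_zero.1 h1).resolve_right hdet

end Pool.ThmMG
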