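import Pool.Agent.Work.MP_f82ddf_gen.Interface

set_option autoImplicit false

/-! # Block PRK (helper59): the explicit solutions -/

namespace Pool.ThmMG

open MvPolynomial Finset Pool.Agent.Work.MP_f82ddf_nt Pool.Agent.Work.MP_f82ddf_nt.DQ Pool.ThmM
open Pool.ThmM0

theorem p_PRK (hS : Stmt_SPL) : Stmt_PRK := by
  intro S _ r n a i c
  rw [hS S r n (fun j => a i j * par a j c)]
  have h1 : ∀ i' : Fin r, a i (lc n i') * par a (lc n i') c =
      -(lft a i i' * ((lft a).adjugate * rgt a) i' c) := by
    intro i'
    have h : (lc n i').1 < r := i'.2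
    have h2 : par a (lc n i') c = - ((lft a).adjugate * rgt a) i' c := by
      unfold par
      rw [dif_pos h]
      rfl
    rw [h2, mul_neg]
    rfl
  have h2 : ∀ c' : Fin (n + 1), a i (rc r c') * par a (rc r c') c =
      if c' = c then rgt a i c' * (lft a).det else 0 := by
    intro c'
    have h : ¬ (rc r c').1 < r := by
      change ¬ r + c'.1 < r
      omega
    have h3 : par a (rc r c') c = if c' = c then (lft a).det else 0 := by
      unfold par
      rw [dif_neg h]
      by_cases hc : c' = c
      · rw [if_pos hc, if_pos]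
        rw [hc]
        rfl
      · rw [if_neg hc, if_neg]
        intro h4
        apply hc
        apply Fin.ext
        change r + c'.1 = r + c.1 at h4
        omega
    rw [h3]
    by_cases hc : c' = c
    · rw [if_pos hc, if_pos hc]
      rfl
    · rw [if_neg hc, if_neg hc, mul_zero]
  rw [Finset.sum_congr rfl fun i' _ => h1 i', Finset.sum_congr rfl fun c' _ => h2 c',
    Finset.sum_neg_distrib, Finset.sum_ite_eq' Finset.univ c, if_pos (Finset.mem_univ c)]
  have h3 : ∑ i', lft a i i' * ((lft a).adjugate * rgt a) i' c =
      (lft a * ((lft a).adjugate * rgt a)) i c := by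
    rw [Matrix.mul_apply]
  rw [h3, ← Matrix.mul_assoc, Matrix.mul_adjugate, Matrix.smul_mul, Matrix.one_mul,
    Matrix.smul_apply, smul_eq_mul]
  ring

end Pool.ThmMG
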