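import Pool.Agent.Work.MP_f82ddf_gen.Interface

set_option autoImplicit false

/-! # Block PRM (helper72): `par` commutes with ring homomorphisms -/

namespace Pool.ThmMG

open MvPolynomial Finset Pool.Agent.Work.MP_f82ddf_nt Pool.Agent.Work.MP_f82ddf_nt.DQ Pool.ThmM
open Pool.ThmM0

theorem p_PRM : Stmt_PRM := by
  intro S T _ _ f r n a j c
  have h1 : lft (a.map f) = f.mapMatrix (lft a) := by
    ext i k
    rfl
  have h2' : rgt (a.map f) = (rgt a).map f := by
    ext i k
    rfl
  unfold par
  split_ifs with h3 h4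
  · rw [h1, h2', ← RingHom.map_adjugate, map_neg]
    congr 1
    rw [Matrix.mul_apply, Matrix.mul_apply, map_sum]
    refine Finset.sum_congr rfl fun k _ => ?_
    rw [map_mul]
    rfl
  · rw [h1, ← RingHom.map_det]
  · rw [map_zero]

end Pool.ThmMG
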