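import Pool.Agent.Work.MP_f82ddf_gen.Interface

set_option autoImplicit false

/-! # THEOREM M, hand-in B: block PTS (points on which no form of degree `D` vanishes) -/

namespace Pool.ThmMG

open MvPolynomial Finset Pool.Agent.Work.MP_f82ddf_nt Pool.Agent.Work.MP_f82ddf_nt.DQ Pool.ThmM
open Pool.ThmM0

theorem PTS_mon_inj (n D : ℕ) : Function.Injective (mon n D) := by
  intro s t h
  exact (mons n D).equivFin.symm.injective (Subtype.ext h)

/-- the vector of the values of the monomials -/
noncomputable def PTS_w (n D : ℕ) (p : Fin (n + 1) → ℚ) : Fin (mons n D).card → ℚ :=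
  fun t => ∏ c, p c ^ (mon n D t c)

theorem PTS_span (n D : ℕ) : Submodule.span ℚ (Set.range (PTS_w n D)) = ⊤ := by
  classical
  by_contra hne
  obtain ⟨f, hf0, hf⟩ := Submodule.exists_le_ker_of_lt_top _ (lt_top_iff_ne_top.2 hne)
  have hf1 : ∀ x, f x = ∑ i, x i * f fun j => if i = j then 1 else 0 := by
    intro x
    rw [LinearMap.pi_apply_eq_sum_univ f x]
    rfl
  obtain ⟨g, hg⟩ : ∃ g : Fin (mons n D).card → ℚ, ∀ i, g i = f fun j => if i = j then 1 else 0 :=
    ⟨_, fun i => rfl⟩
  have hf2 : ∀ x, f x = ∑ i, x i * g i := by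
    intro x
    rw [hf1 x]
    exact Finset.sum_congr rfl fun i _ => by rw [hg]
  have hP : (∑ t, monomial (mon n D t) (g t) : MvPolynomial (Fin (n + 1)) ℚ) = 0 := by
    apply MvPolynomial.funext
    intro p
    rw [map_sum, map_zero]
    have h1 : f (PTS_w n D p) = 0 := hf (Submodule.subset_span ⟨p, rfl⟩)
    rw [hf2] at h1
    rw [← h1]
    refine Finset.sum_congr rfl fun t _ => ?_
    rw [eval_monomial, Finsupp.prod_fintype _ _ (fun c => pow_zero _), mul_comm]
    rfl
  have hg0 : ∀ t, g t = 0 := by
    intro t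
    have h2 := congrArg (coeff (mon n D t)) hP
    rw [coeff_sum, coeff_zero] at h2
    rw [Finset.sum_eq_single t] at h2
    · rwa [coeff_monomial, if_pos rfl] at h2
    · intro b _ hb
      rw [coeff_monomial, if_neg]
      intro h3
      exact hb (PTS_mon_inj n D h3)
    · intro h3
      exact absurd (Finset.mem_univ t) h3
  apply hf0
  apply LinearMap.ext
  intro x
  rw [hf2 x]
  simp [hg0]

theorem p_PTS : Stmt_PTS := by
  intro n D
  obtain ⟨f, hf1, -, hf3⟩ :=
    Submodule.exists_fun_fin_finrank_span_eq ℚ (Set.range (PTS_w n D))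
  have hfr : Module.finrank ℚ (Submodule.span ℚ (Set.range (PTS_w n D))) = (mons n D).card := by
    rw [PTS_span, finrank_top, Module.finrank_fin_fun]
  choose q hq using hf1
  refine ⟨fun s => q (Fin.cast hfr.symm s), ?_⟩
  have hli : LinearIndependent ℚ fun s : Fin (mons n D).card => f (Fin.cast hfr.symm s) :=
    hf3.comp _ (Fin.cast_injective _)
  have hM : (Matrix.of fun s t : Fin (mons n D).card =>
      ∏ c, q (Fin.cast hfr.symm s) c ^ (mon n D t c)).row =
      fun s : Fin (mons n D).card => f (Fin.cast hfr.symm s) := by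
    funext s
    rw [← hq]
    rfl
  have h1 : LinearIndependent ℚ (Matrix.of fun s t : Fin (mons n D).card =>
      ∏ c, q (Fin.cast hfr.symm s) c ^ (mon n D t c)).row := by
    rw [hM]
    exact hli
  rw [Matrix.linearIndependent_rows_iff_isUnit, Matrix.isUnit_iff_isUnit_det] at h1
  exact h1.ne_zero

end Pool.ThmMG
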