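import Pool.Agent.Work.MP_f82ddf_gen.Interface

set_option autoImplicit false

namespace Pool.ThmMG

open MvPolynomial Finset Pool.Agent.Work.MP_f82ddf_nt Pool.Agent.Work.MP_f82ddf_nt.DQ Pool.ThmM
open Pool.ThmM0

theorem SMO_image {m : ℕ} {r : ℕ} (t : Finset (Fin m)) (ht : t.card = r) :
    (Finset.univ : Finset (Fin r)).image (fun l => t.orderEmbOfFin ht l) = t := by
  ext j
  have h := Finset.range_orderEmbOfFin t ht
  constructor
  · intro hj
    obtain ⟨l, -, hl⟩ := Finset.mem_image.1 hj
    have : j ∈ Set.range (t.orderEmbOfFin ht) := ⟨l, hl⟩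
    rw [h] at this
    exact this
  · intro hj
    have : j ∈ Set.range (t.orderEmbOfFin ht) := by
      rw [h]
      exact hj
    obtain ⟨l, hl⟩ := this
    exact Finset.mem_image.2 ⟨l, Finset.mem_univ _, hl⟩

theorem p_SMO : Stmt_SMO := by
  intro K _ _ r n k a hk hdet v hv heq
  classical
  set s := Finset.univ.filter (fun j => v j ≠ 0) with hs
  have hmap : ∀ J : Fin r → Fin (n + r + 1), Function.Injective J →
      (Matrix.of fun i l => algebraMap K (AlgebraicClosure K) (a i (J l))).det ≠ 0 := by
    intro J hJ
    have h1 := hdet J hJ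
    have h2 : (Matrix.of fun i l => algebraMap K (AlgebraicClosure K) (a i (J l))) =
        (algebraMap K (AlgebraicClosure K)).mapMatrix (Matrix.of fun i l => a i (J l)) := by
      ext i l
      simp
    rw [h2, ← RingHom.map_det]
    exact (map_ne_zero _).2 h1
  have hA : r ≤ s.card := by
    by_contra hlt
    push Not at hlt
    obtain ⟨t, hst, -, ht⟩ := Finset.exists_subsuperset_card_eq (Finset.subset_univ s) hlt.le
      (by simp only [Finset.card_univ, Fintype.card_fin]; omega)
    have hJ : Function.Injective (fun l => t.orderEmbOfFin ht l) := (t.orderEmbOfFin ht).injective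
    have h0 := Matrix.eq_zero_of_mulVec_eq_zero (hmap _ hJ)
      (v := fun l => v (t.orderEmbOfFin ht l) ^ k) (by
        funext i
        have h1 := heq i
        have h2 : ∑ j, algebraMap K (AlgebraicClosure K) (a i j) * v j ^ k =
            ∑ j ∈ t, algebraMap K (AlgebraicClosure K) (a i j) * v j ^ k := by
          symm
          apply Finset.sum_subset (Finset.subset_univ t)
          intro j _ hj
          have hj0 : v j = 0 := by
            by_contra h
            exact hj (hst (Finset.mem_filter.2 ⟨Finset.mem_univ _, h⟩))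
          rw [hj0, zero_pow (by omega), mul_zero]
        rw [h2, ← SMO_image t ht, Finset.sum_image (fun x _ y _ hxy => hJ hxy)] at h1
        simpa [Matrix.mulVec, dotProduct] using h1)
    apply hv
    funext j
    by_contra hj
    have hjt : j ∈ t := hst (Finset.mem_filter.2 ⟨Finset.mem_univ _, hj⟩)
    rw [← SMO_image t ht] at hjt
    obtain ⟨l, -, hl⟩ := Finset.mem_image.1 hjt
    have h3 := congrFun h0 l
    simp only [Pi.zero_apply] at h3
    have h4 : v (t.orderEmbOfFin ht l) = 0 := by
      by_contra h5
      exact absurd h3 (pow_ne_zero _ h5)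
    apply hj
    rw [← hl]
    exact h4
  obtain ⟨t, hts, ht⟩ := Finset.exists_subset_card_eq hA
  have hJ : Function.Injective (fun l => t.orderEmbOfFin ht l) := (t.orderEmbOfFin ht).injective
  have hJs : ∀ l, v (t.orderEmbOfFin ht l) ≠ 0 := by
    intro l
    have : t.orderEmbOfFin ht l ∈ s := hts (Finset.orderEmbOfFin_mem t ht l)
    exact (Finset.mem_filter.1 this).2
  rw [Fintype.linearIndependent_iff]
  intro g hg
  have h1 : ∀ l : Fin r, ∑ i, g i * algebraMap K (AlgebraicClosure K)
      (a i (t.orderEmbOfFin ht l)) = 0 := by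
    intro l
    have h2 := congrFun hg (t.orderEmbOfFin ht l)
    simp only [Finset.sum_apply, Pi.smul_apply, smul_eq_mul, Pi.zero_apply] at h2
    have hk0 : (k : AlgebraicClosure K) ≠ 0 := by
      have : k ≠ 0 := by omega
      exact_mod_cast this
    have hne : (k : AlgebraicClosure K) * v (t.orderEmbOfFin ht l) ^ (k - 1) ≠ 0 :=
      mul_ne_zero hk0 (pow_ne_zero _ (hJs l))
    have h3 : (∑ i, g i * algebraMap K (AlgebraicClosure K) (a i (t.orderEmbOfFin ht l))) *
        ((k : AlgebraicClosure K) * v (t.orderEmbOfFin ht l) ^ (k - 1)) = 0 := by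
      rw [Finset.sum_mul, ← h2]
      refine Finset.sum_congr rfl (fun i _ => ?_)
      ring
    rcases mul_eq_zero.1 h3 with h | h
    · exact h
    · exact absurd h hne
  have h2 := Matrix.eq_zero_of_vecMul_eq_zero (hmap _ hJ) (v := g) (by
    funext l
    have := h1 l
    simpa [Matrix.vecMul, dotProduct] using this)
  intro i
  exact congrFun h2 i

end Pool.ThmMG
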