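import Pool.Agent.Work.MP_f82ddf_gen.Interface

set_option autoImplicit false

/-! # THEOREM M, genericity part, block VND -/

namespace Pool.ThmMG

open MvPolynomial Finset Pool.Agent.Work.MP_f82ddf_nt Pool.Agent.Work.MP_f82ddf_nt.DQ Pool.ThmM
open Pool.ThmM0

theorem VND_mem {n D : ℕ} (d : Fin (n + 1) →₀ ℕ) : d ∈ mons n D ↔ d.degree = D := by
  unfold mons
  rw [Finset.mem_finsuppAntidiag]
  constructor
  · rintro ⟨h1, -⟩
    rw [← h1, Finsupp.degree_eq_sum]
  · intro h
    refine ⟨?_, Finset.subset_univ _⟩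
    rw [← h, Finsupp.degree_eq_sum]

theorem VND_sum {n D : ℕ} {K : Type} [Field K] (H : MvPolynomial (Fin (n + 1)) K)
    (hH : H.IsHomogeneous D) (p : Fin (n + 1) → K) :
    eval p H = ∑ t : Fin (mons n D).card, coeff (mon n D t) H * ∏ c, p c ^ (mon n D t c) := by
  rw [eval_eq']
  have h1 : H.support ⊆ mons n D := by
    intro d hd
    rw [VND_mem]
    by_contra hcon
    exact (mem_support_iff.mp hd) (hH.coeff_eq_zero hcon)
  rw [Finset.sum_subset h1 (fun d _ hd => by rw [notMem_support_iff.mp hd, zero_mul])]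
  rw [← Finset.sum_coe_sort]
  exact (Equiv.sum_comp (mons n D).equivFin.symm
    (fun x : mons n D => coeff x.1 H * ∏ c, p c ^ (x.1 c))).symm

theorem p_VND : Stmt_VND := by
  intro K _ r n D h l hver e G he hG hG0
  by_contra hcon
  push Not at hcon
  obtain ⟨H, hH⟩ : ∃ H : MvPolynomial (Fin (n + 1)) K, H = X 0 ^ (D - e) * G := ⟨_, rfl⟩
  have hH0 : H ≠ 0 := by
    rw [hH]
    exact mul_ne_zero (pow_ne_zero _ (X_ne_zero 0)) hG0
  have hhom : H.IsHomogeneous D := by
    have h1 := ((isHomogeneous_X K (0 : Fin (n + 1))).pow (D - e)).mul hG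
    rw [hH]
    have h2 : 1 * (D - e) + e = D := by omega
    rwa [h2] at h1
  have hev : ∀ j, eval (l j) H = 0 := by
    intro j
    rw [hH, map_mul, hcon j, mul_zero]
  have hg : (fun t : Fin (mons n D).card => coeff (mon n D t) H) = 0 := by
    apply Matrix.eq_zero_of_mulVec_eq_zero hver
    funext s
    rw [Pi.zero_apply, ← hev (nd h s), VND_sum H hhom]
    unfold Matrix.mulVec dotProduct
    refine Finset.sum_congr rfl fun t _ => ?_
    exact mul_comm _ _
  apply hH0
  ext d
  rw [coeff_zero]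
  by_cases hd : d ∈ mons n D
  · have h3 := congrFun hg ((mons n D).equivFin ⟨d, hd⟩)
    simp only [mon, Equiv.symm_apply_apply, Pi.zero_apply] at h3
    exact h3
  · apply hhom.coeff_eq_zero
    rwa [VND_mem] at hd

end Pool.ThmMG
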