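import Pool.Agent.Work.MP_f82ddf_gen.Interface

set_option autoImplicit false

/-! # THEOREM M, genericity part, block VNZ -/

namespace Pool.ThmMG

open MvPolynomial Finset Pool.Agent.Work.MP_f82ddf_nt Pool.Agent.Work.MP_f82ddf_nt.DQ Pool.ThmM
open Pool.ThmM0

theorem VNZ_ver {S T : Type} [CommRing S] [CommRing T] (f : S →+* T) (n D : ℕ)
    (p : Fin (mons n D).card → Fin (n + 1) → S) :
    f (ver n D p) = ver n D (fun s c => f (p s c)) := by
  unfold ver
  rw [RingHom.map_det]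
  congr 1
  ext s t
  simp only [RingHom.mapMatrix_apply, Matrix.map_apply, Matrix.of_apply, map_prod, map_pow]

theorem p_VNZ (hPRM : Stmt_PRM) (hPTS : Stmt_PTS) : Stmt_VNZ := by
  intro n D r h h0
  obtain ⟨p, hp⟩ := hPTS n D
  obtain ⟨a, ha⟩ : ∃ a : Matrix (Fin r) (Fin (n + r + 1)) ℚ,
    a = Matrix.of fun (i : Fin r) (j : Fin (n + r + 1)) =>
      if hj : j.1 < r then (if j.1 = i.1 then 1 else 0) else
        (if hi : i.1 < (mons n D).card then - p ⟨i.1, hi⟩ ⟨j.1 - r, by omega⟩ else 0) := ⟨_, rfl⟩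
  obtain ⟨φ, hφ⟩ : ∃ φ : MvPolynomial (Fin r × Fin (n + r + 1)) ℤ →+* ℚ,
    φ = eval₂Hom (Int.castRingHom ℚ) (fun q => a q.1 q.2) := ⟨_, rfl⟩
  have hmap : (gm r n).map φ = a := by
    ext i j
    rw [Matrix.map_apply, gm, Matrix.of_apply, hφ, coe_eval₂Hom, eval₂_X]
  apply hp
  have h1 := congrArg φ h0
  rw [map_zero, VNZ_ver] at h1
  rw [← h1]
  congr 1
  funext s c
  rw [← hPRM _ _ φ r n (gm r n) (nd h s) c, hmap]
  have hs : s.1 < r := by omega
  have hlft : lft a = 1 := by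
    ext i j
    rw [lft, Matrix.of_apply, ha, Matrix.of_apply]
    have hj : (lc n j : Fin (n + r + 1)).1 = j.1 := rfl
    rw [dif_pos (by rw [hj]; exact j.2), hj, Matrix.one_apply]
    by_cases hij : i = j
    · rw [if_pos hij, if_pos (by rw [hij])]
    · rw [if_neg hij, if_neg (fun h => hij (Fin.ext h.symm))]
  have hnd : (nd h s : Fin (n + r + 1)).1 = s.1 := rfl
  unfold par
  rw [dif_pos (by rw [hnd]; exact hs), hlft, Matrix.adjugate_one, Matrix.one_mul, rgt,
    Matrix.of_apply, ha, Matrix.of_apply]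
  have hrc : (rc r c : Fin (n + r + 1)).1 = r + c.1 := rfl
  rw [dif_neg (by rw [hrc]; omega)]
  rw [dif_pos (show ((⟨(nd h s : Fin (n + r + 1)).1, by rw [hnd]; exact hs⟩ : Fin r)).1 <
    (mons n D).card from s.2)]
  rw [neg_neg]
  congr 1
  apply Fin.ext
  show c.1 = (rc r c : Fin (n + r + 1)).1 - r
  rw [hrc]
  omega

end Pool.ThmMG
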