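import Pool.Agent.Work.MP_f82ddf_gen.B_SPL
import Pool.Agent.Work.MP_f82ddf_gen.B_PRK
import Pool.Agent.Work.MP_f82ddf_gen.B_PRI
import Pool.Agent.Work.MP_f82ddf_gen.B_PRM
import Pool.Agent.Work.MP_f82ddf_gen.B_VND
import Pool.Agent.Work.MP_f82ddf_gen.B_PTS
import Pool.Agent.Work.MP_f82ddf_gen.B_VNZ
import Pool.Agent.Work.MP_f82ddf_gen.B_MNZ
import Pool.Agent.Work.MP_f82ddf_gen.B_SMO
import Pool.Agent.Work.MP_f82ddf_gen.B_GNR

set_option autoImplicit false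

namespace Pool.ThmMG

theorem all_PRK : Stmt_PRK := p_PRK p_SPL
theorem all_PRI : Stmt_PRI := p_PRI all_PRK
theorem all_VNZ : Stmt_VNZ := p_VNZ p_PRM p_PTS
theorem all_GNR : Stmt_GNR := p_GNR all_PRI p_PRM p_VND all_VNZ p_MNZ p_SMO

/-- The generic form follows from `Stmt_M3`. -/
theorem all_M3G (h3 : Pool.ThmM0.Stmt_M3) : Stmt_M3G := m3g_of h3 all_GNR

end Pool.ThmMG
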