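import Pool.Agent.Work.MP_f82ddf_gen.Interface

set_option autoImplicit false

namespace Pool.ThmMG

theorem p_SPL : Stmt_SPL := by
  intro S _ r n f
  have e : r + (n + 1) = n + r + 1 := by omega
  have h1 : ∑ j, f j = ∑ j : Fin (r + (n + 1)), f (Fin.cast e j) :=
    (Equiv.sum_comp (finCongr e) f).symm
  rw [h1, Fin.sum_univ_add]
  rfl

end Pool.ThmMG
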