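import Pool.Agent.Work.MP_f82ddf_gen.All
import Pool.Agent.Work.MP_f82ddf_M0.Interface4

set_option autoImplicit false

/-! # Hand-in B of THEOREM M: node criterion and generic form, for all varieties finite over a
diagonal complete intersection -/

namespace Pool.ThmMG

open MvPolynomial Finset Pool.Agent.Work.MP_f82ddf_nt Pool.Agent.Work.MP_f82ddf_nt.DQ Pool.ThmM
open Pool.ThmM0

/-- The identity is a finite morphism from the diagonal complete intersection to itself. -/
theorem finiteTo_self {K : Type} [Field K] {r N : ℕ} (k : ℕ) (a : Matrix (Fin r) (Fin (N + 1)) K) :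
    FiniteTo k a (diag k a) 1 (fun j => (X j : MvPolynomial (Fin (N + 1)) K)) := by
  refine ⟨le_refl _, fun j => isHomogeneous_X _ _, ?_⟩
  intro v hv
  constructor
  · intro i
    have h := hv _ ⟨i, rfl⟩
    simpa [map_sum, map_mul, map_pow, aeval_X] using h
  · intro h
    funext j
    have := h j
    simpa using this

theorem diag_homog {K : Type} [Field K] {r N : ℕ} (k : ℕ) (a : Matrix (Fin r) (Fin (N + 1)) K) :
    ∀ F ∈ diag k a, ∃ d, F.IsHomogeneous d := by
  rintro F ⟨i, rfl⟩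
  refine ⟨k, ?_⟩
  apply MvPolynomial.IsHomogeneous.sum
  intro j _
  have h1 : (C (a i j) : MvPolynomial (Fin (N + 1)) K).IsHomogeneous 0 := isHomogeneous_C _ _
  have h2 : ((X j : MvPolynomial (Fin (N + 1)) K) ^ k).IsHomogeneous k := by
    have := (isHomogeneous_X K j).pow k
    simpa using this
  have := h1.mul h2
  simpa using this

/-- Hand-in B. -/
def Stmt_B : Prop :=
  ∀ n : ℕ, ∃ D r₀ : ℕ,
    (∀ (r k : ℕ), 2 ≤ k →
      ∀ (K : Type) [Field K] [CharZero K] (a : Matrix (Fin r) (Fin (n + r + 1)) K),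
        SmoothDiag k a → ∀ l : Fin (n + r + 1) → Fin (n + 1) → K, IsParam a l →
        NoHypersurface D l → ∀ (m e : ℕ) (S : Set (MvPolynomial (Fin (m + 1)) K))
          (h : Fin (n + r + 1) → MvPolynomial (Fin (m + 1)) K),
          (∀ F ∈ S, ∃ d, F.IsHomogeneous d) → FiniteTo k a S e h →
          ∀ σ : K →+* ℂ, KobayashiHyperbolic (complexPoints S σ)) ∧
    ∀ r : ℕ, r₀ ≤ r → ∃ P : MvPolynomial (Fin r × Fin (n + r + 1)) ℤ, P ≠ 0 ∧
      ∀ (K : Type) [Field K] [CharZero K] (a : Matrix (Fin r) (Fin (n + r + 1)) K),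
        aeval (fun q => a q.1 q.2) P ≠ 0 → ∀ k : ℕ, 2 ≤ k →
          SmoothDiag k a ∧
          (∀ σ : K →+* ℂ, KobayashiHyperbolic (complexPoints (diag k a) σ)) ∧
          ∀ (m e : ℕ) (S : Set (MvPolynomial (Fin (m + 1)) K))
            (h : Fin (n + r + 1) → MvPolynomial (Fin (m + 1)) K),
            (∀ F ∈ S, ∃ d, F.IsHomogeneous d) → FiniteTo k a S e h →
            ∀ σ : K →+* ℂ, KobayashiHyperbolic (complexPoints S σ)

theorem b_of (hX : Stmt_GEX) : Stmt_B := by
  intro n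
  obtain ⟨D, hD⟩ := hX n
  obtain ⟨r₀, hr⟩ := all_GNR n D
  refine ⟨D, r₀, fun r k hk K _ _ a ha l hl hn m e S h hS hF σ =>
    hD r k hk K a ha l hl hn m e S h hS hF σ, ?_⟩
  intro r h
  obtain ⟨P, hP, hP2⟩ := hr r h
  refine ⟨P, hP, ?_⟩
  intro K _ _ a ha k hk
  obtain ⟨h1, l, h2, h3⟩ := hP2 K a ha
  refine ⟨h1 k hk, fun σ => ?_, fun m e S g hS hF σ => ?_⟩
  · exact hD r k hk K a (h1 k hk) l h2 h3 (n + r) 1 (diag k a) _ (diag_homog k a)
      (finiteTo_self k a) σ
  · exact hD r k hk K a (h1 k hk) l h2 h3 m e S g hS hF σ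

end Pool.ThmMG
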