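import Pool.Agent.Work.MP_f82ddf_M0.Interface3

set_option autoImplicit false

/-! # THEOREM M (MP_f82ddf_nt), hand-in B: the genericity part

Smooth diagonal complete intersections `X_(a,k)` of dimension `n` and codimension `r`, `r` large:
for all matrices `a` outside the zero set of one nonzero integer polynomial (independent of `k`) the
system is smooth for every `k ≥ 2` and the nodes do not lie on a hypersurface of degree `≤ D`. -/

namespace Pool.ThmMG

open MvPolynomial Finset Pool.Agent.Work.MP_f82ddf_nt Pool.Agent.Work.MP_f82ddf_nt.DQ Pool.ThmM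
open Pool.ThmM0

/-- The `i`-th of the first `r` columns. -/
def lc {r : ℕ} (n : ℕ) (i : Fin r) : Fin (n + r + 1) := ⟨i.1, by omega⟩

/-- The `c`-th of the last `n + 1` columns. -/
def rc {n : ℕ} (r : ℕ) (c : Fin (n + 1)) : Fin (n + r + 1) := ⟨r + c.1, by omega⟩

/-- The square block of the first `r` columns. -/
def lft {S : Type*} {r n : ℕ} (a : Matrix (Fin r) (Fin (n + r + 1)) S) : Matrix (Fin r) (Fin r) S :=
  Matrix.of fun i j => a i (lc n j)

/-- The block of the last `n + 1` columns. -/
def rgt {S : Type*} {r n : ℕ} (a : Matrix (Fin r) (Fin (n + r + 1)) S) :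
    Matrix (Fin r) (Fin (n + 1)) S :=
  Matrix.of fun i c => a i (rc r c)

/-- The explicit solutions of `Σ_j a_ij u_j = 0`: the columns of `(- adj(A) B ; det(A) 1)` for
`a = (A | B)`. -/
def par {S : Type*} [CommRing S] {r n : ℕ} (a : Matrix (Fin r) (Fin (n + r + 1)) S) :
    Fin (n + r + 1) → Fin (n + 1) → S :=
  fun j c => if h : j.1 < r then - ((lft a).adjugate * rgt a) ⟨j.1, h⟩ c
    else if j.1 = r + c.1 then (lft a).det else 0

/-- The exponents of the monomials of degree `D` in `n + 1` variables. -/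
def mons (n D : ℕ) : Finset (Fin (n + 1) →₀ ℕ) := Finset.finsuppAntidiag Finset.univ D

/-- The `t`-th exponent. -/
noncomputable def mon (n D : ℕ) (t : Fin (mons n D).card) : Fin (n + 1) →₀ ℕ :=
  ((mons n D).equivFin.symm t).1

/-- The Veronese determinant of as many points as there are monomials of degree `D`. -/
noncomputable def ver {S : Type*} [CommRing S] (n D : ℕ)
    (p : Fin (mons n D).card → Fin (n + 1) → S) : S :=
  (Matrix.of fun s t : Fin (mons n D).card => ∏ c, p s c ^ (mon n D t c)).det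

/-- The first `(mons n D).card` indices. -/
def nd {n D r : ℕ} (h : (mons n D).card ≤ r) (s : Fin (mons n D).card) : Fin (n + r + 1) :=
  ⟨s.1, by omega⟩

/-- The generic matrix. -/
noncomputable def gm (r n : ℕ) :
    Matrix (Fin r) (Fin (n + r + 1)) (MvPolynomial (Fin r × Fin (n + r + 1)) ℤ) :=
  Matrix.of fun i j => X (i, j)

/-- SPL (40 lines).  Splitting a sum over all the columns.  PROOF.  Both sides are sums over
`Fin (r + (n + 1))`: `Fin.sum_univ_add` and the cast `finCongr (by omega)`
(`Equiv.sum_comp`), or `Finset.sum_bij`-like with the disjoint images of `lc` and `rc`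
(`Fin.sum_univ_eq_sum_range` twice and `Finset.sum_range_add`-like lemmas also work: extend `f` by 0
to `ℕ`). -/
def Stmt_SPL : Prop :=
  ∀ (S : Type) [AddCommMonoid S] (r n : ℕ) (f : Fin (n + r + 1) → S),
    ∑ j, f j = ∑ i : Fin r, f (lc n i) + ∑ c : Fin (n + 1), f (rc r c)

/-- PRK (60 lines), uses SPL.  PROOF.  By SPL the sum is
`- Σ_i' A_(i,i') (adj(A) B)_(i',c) + Σ_c' B_(i,c') (if r + c' = r + c then det A else 0)`
`= - (A adj(A) B)_(i,c) + B_(i,c) det A = 0` (`Matrix.mul_adjugate`, `Matrix.mul_assoc`,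
`Matrix.smul_mul`). -/
def Stmt_PRK : Prop :=
  ∀ (S : Type) [CommRing S] (r n : ℕ) (a : Matrix (Fin r) (Fin (n + r + 1)) S) (i : Fin r)
    (c : Fin (n + 1)), ∑ j, a i j * par a j c = 0

/-- PRI (40 lines), uses PRK.  PROOF.  The first clause of `IsParam` is PRK.  Independence
(`Fintype.linearIndependent_iff`): `Σ_c g_c par a j c = 0` for all `j`; at `j = rc r c'` it is
`g_c' det A = 0`. -/
def Stmt_PRI : Prop :=
  ∀ (K : Type) [Field K] (r n : ℕ) (a : Matrix (Fin r) (Fin (n + r + 1)) K),
    (lft a).det ≠ 0 → IsParam a (par a)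

/-- PRM (40 lines).  `par` commutes with ring homomorphisms.  PROOF.  Unfold; `split_ifs`;
`RingHom.map_det`, `RingHom.map_adjugate` (`f.mapMatrix`), `map_sum`, `map_mul`, `map_neg`;
`lft (a.map f) = f.mapMatrix (lft a)` is `rfl` after `Matrix.ext`. -/
def Stmt_PRM : Prop :=
  ∀ (S T : Type) [CommRing S] [CommRing T] (f : S →+* T) (r n : ℕ)
    (a : Matrix (Fin r) (Fin (n + r + 1)) S) (j : Fin (n + r + 1)) (c : Fin (n + 1)),
    par (a.map f) j c = f (par a j c)

/-- VND (90 lines).  PROOF.  Let `e ≤ D`, `G ≠ 0` homogeneous of degree `e`, and suppose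
`eval (l j) G = 0` for all `j`.  `H = X 0 ^ (D - e) * G` is not zero, homogeneous of degree `D`, and
vanishes at all the `l j`.  The support of `H` is contained in `mons n D`
(`Finset.mem_finsuppAntidiag`, homogeneity: `coeff μ H ≠ 0 → μ.degree = D`, `Finsupp.degree` is the
sum over the support; extend it to `univ`), so
`eval p H = Σ_(t : Fin (mons n D).card) coeff (mon n D t) H * ∏ c, p c ^ (mon n D t c)`
(`MvPolynomial.eval_eq'`, reindex with `(mons n D).equivFin`).  So the vector
`g t = coeff (mon n D t) H` satisfies `M.mulVec g = 0`, `M` the matrix of `ver` at the points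
`l (nd h s)`, `det M ≠ 0`: `g = 0` (`Matrix.eq_zero_of_mulVec_eq_zero`), `H = 0`,
contradiction. -/
def Stmt_VND : Prop :=
  ∀ (K : Type) [Field K] (r n D : ℕ) (h : (mons n D).card ≤ r)
    (l : Fin (n + r + 1) → Fin (n + 1) → K),
    ver n D (fun s => l (nd h s)) ≠ 0 → NoHypersurface D l

/-- PTS (100 lines).  Points on which no form of degree `D` vanishes.  PROOF.  The span `W` of the
vectors `w(p) = (∏ c, p c ^ (mon n D t c))_t`, `p ∈ ℚ^(n+1)`, is the whole space
`Fin (mons n D).card → ℚ`: otherwise there is a linear functional `g ≠ 0` vanishing on `W`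
(`Submodule.exists_le_ker_of_lt_top` and `LinearMap.pi_apply_eq_sum_univ`), and the polynomial
`Σ_t g_t monomial (mon n D t) 1` has value 0 at all rational points, so it is zero
(`MvPolynomial.funext` over the infinite field `ℚ`), so all its coefficients `g_t` are zero (`mon`
is injective).  A spanning set contains a basis (`Submodule.exists_fun_fin_finrank_span_eq`,
or `exists_linearIndependent` / `Basis.extend`; there are `finrank = (mons n D).card` of
them): points `p_s` with `w(p_s)` linearly independent, so the determinant is not zero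
(`Matrix.linearIndependent_rows_iff_isUnit` or `LinearIndependent` to `det ≠ 0`). -/
def Stmt_PTS : Prop :=
  ∀ n D : ℕ, ∃ p : Fin (mons n D).card → Fin (n + 1) → ℚ, ver n D p ≠ 0

/-- VNZ (80 lines), uses PRM PTS.  PROOF.  Take the points `p` of PTS and the rational matrix `a`
with `a i (lc n j) = 1` if `i = j` and 0 otherwise, `a i (rc r c) = - p ⟨i, _⟩ c` if
`i < (mons n D).card` and 0 otherwise (define `a i j` by `dite` on `j.1 < r`).  Let
`φ = aeval (fun q => a q.1 q.2)`, as a ring homomorphism to `ℚ`; `(gm r n).map φ = a`.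
`φ (ver n D p') = ver n D (φ ∘ p')` (`RingHom.map_det`, `map_prod`, `map_pow`), and by PRM
`φ (par (gm r n) j c) = par a j c`.  Here `lft a = 1`, so `adjugate = 1`
(`Matrix.adjugate_one`), and for `j = nd h s` (its value `s < r`)
`par a (nd h s) c = - (rgt a) ⟨s, _⟩ c = p s c`.  So the value of `φ` is `ver n D p ≠ 0`. -/
def Stmt_VNZ : Prop :=
  ∀ (n D r : ℕ) (h : (mons n D).card ≤ r),
    ver n D (fun s => par (gm r n) (nd h s)) ≠ 0

/-- MNZ (40 lines).  PROOF.  Apply the evaluation at the integer matrix `a i j = 1` if `j = J i` and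
0 otherwise: by injectivity of `J` the matrix becomes `1`, `det 1 = 1 ≠ 0` (`RingHom.map_det`). -/
def Stmt_MNZ : Prop :=
  ∀ (r n : ℕ) (J : Fin r → Fin (n + r + 1)), Function.Injective J →
    (Matrix.of fun i l => gm r n i (J l)).det ≠ 0

/-- SMO (120 lines).  Converse of MIN.  PROOF.  Let `v ≠ 0` in the algebraic closure with
`Σ_j a_ij v_j^k = 0` for all `i`, and let `s` be the set of the `j` with `v j ≠ 0`.  (A) `s` has
at least `r` elements: otherwise (in fact if it has at most `r` elements) choose an injective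
`J : Fin r → Fin (n + r + 1)` whose image contains `s` (`Finset.exists_superset_card_eq`, then
`Finset.orderEmbOfFin` or `equivFin`); then `Σ_l a_(i, J l) v_(J l)^k = 0`, the determinant of this
matrix over the closure is the image of a nonzero determinant, so `v_(J l)^k = 0` for all `l`
(`Matrix.eq_zero_of_mulVec_eq_zero`), `v_(J l) = 0`, `v = 0`, contradiction.  So there is an
injective `J` with image in `s`.  (B) Let `Σ_i g_i (k a_ij v_j^(k-1)) = 0` for all `j`
(`Fintype.linearIndependent_iff`).  For `j = J l` divide by `k v_j^(k-1) ≠ 0`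
(characteristic zero): `Σ_i g_i a_(i, J l) = 0` for all `l`, so `g = 0`
(`Matrix.eq_zero_of_vecMul_eq_zero`). -/
def Stmt_SMO : Prop :=
  ∀ (K : Type) [Field K] [CharZero K] (r n k : ℕ) (a : Matrix (Fin r) (Fin (n + r + 1)) K),
    2 ≤ k → (∀ J : Fin r → Fin (n + r + 1), Function.Injective J →
      (Matrix.of fun i l => a i (J l)).det ≠ 0) → SmoothDiag k a

/-- GNR (80 lines), uses PRI PRM VND VNZ MNZ SMO.  PROOF.  `r₀ = (mons n D).card`,
`P = ver n D (fun s => par (gm r n) (nd h s)) * ∏ J, det (gm r n)_J`, the product over the finite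
set (`Finset.univ.filter Function.Injective`) of the injective `J : Fin r → Fin (n + r + 1)`.
`P ≠ 0`: VNZ, MNZ, `mul_ne_zero`, `Finset.prod_ne_zero_iff` (the ring is a domain).  If the value of
`P` at `a` is not 0 then all the factors have nonzero values.  With the ring homomorphism
`φ = aeval (fun q => a q.1 q.2)` and `(gm r n).map φ = a` the values of the determinants are
`det a_J` (`RingHom.map_det`) and, by PRM, the value of the first factor is
`ver n D (fun s => par a (nd h s))`.  SMO; `l = par a`: PRI with `(lft a).det ≠ 0`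
(`J = lc n`, injective) and VND. -/
def Stmt_GNR : Prop :=
  ∀ n D : ℕ, ∃ r₀ : ℕ, ∀ r : ℕ, r₀ ≤ r →
    ∃ P : MvPolynomial (Fin r × Fin (n + r + 1)) ℤ, P ≠ 0 ∧
      ∀ (K : Type) [Field K] [CharZero K] (a : Matrix (Fin r) (Fin (n + r + 1)) K),
        aeval (fun q => a q.1 q.2) P ≠ 0 →
          (∀ k : ℕ, 2 ≤ k → SmoothDiag k a) ∧
          ∃ l : Fin (n + r + 1) → Fin (n + 1) → K, IsParam a l ∧ NoHypersurface D l

/-- THEOREM M, PART (3), with the generic form. -/
def Stmt_M3G : Prop :=
  ∀ n : ℕ, ∃ D r₀ : ℕ,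
    (∀ (r k : ℕ), 2 ≤ k →
      ∀ (K : Type) [Field K] [CharZero K] (a : Matrix (Fin r) (Fin (n + r + 1)) K),
        SmoothDiag k a → ∀ l : Fin (n + r + 1) → Fin (n + 1) → K, IsParam a l →
        NoHypersurface D l →
        ∀ σ : K →+* ℂ, KobayashiHyperbolic (complexPoints (diag k a) σ)) ∧
    ∀ r : ℕ, r₀ ≤ r → ∃ P : MvPolynomial (Fin r × Fin (n + r + 1)) ℤ, P ≠ 0 ∧
      ∀ (K : Type) [Field K] [CharZero K] (a : Matrix (Fin r) (Fin (n + r + 1)) K),
        aeval (fun q => a q.1 q.2) P ≠ 0 → ∀ k : ℕ, 2 ≤ k →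
          SmoothDiag k a ∧
          ∀ σ : K →+* ℂ, KobayashiHyperbolic (complexPoints (diag k a) σ)

theorem m3g_of (h3 : Stmt_M3) (hG : Stmt_GNR) : Stmt_M3G := by
  intro n
  obtain ⟨D, hD⟩ := h3 n
  obtain ⟨r₀, hr⟩ := hG n D
  refine ⟨D, r₀, fun r k hk K _ _ a ha l hl hn σ => hD r k hk K a ha l hl hn σ, ?_⟩
  intro r h
  obtain ⟨P, hP, hP2⟩ := hr r h
  refine ⟨P, hP, ?_⟩
  intro K _ _ a ha k hk
  obtain ⟨h1, l, h2, h3⟩ := hP2 K a ha
  exact ⟨h1 k hk, fun σ => hD r k hk K a (h1 k hk) l h2 h3 σ⟩

end Pool.ThmMG
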